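import Mathlib

/-!
Auxiliary facts on the Gagliardo seminorm of order 1/q on Euclidean space.
-/

open MeasureTheory Filter Topology Set
open scoped ENNReal NNReal

namespace Pool.Agent.H57.Besov

/-- weight -/
noncomputable def wt (N : ℕ) (h : EuclideanSpace ℝ (Fin N)) : ℝ≥0∞ :=
  ENNReal.ofReal (1 / ‖h‖ ^ (N + 1))

lemma measurable_wt (N : ℕ) : Measurable (wt N) := by
  unfold wt; fun_prop

/-- the q-th power of the Gagliardo seminorm of a scalar function -/
noncomputable def J {N : ℕ} (q : ℝ) (v : EuclideanSpace ℝ (Fin N) → ℝ) : ℝ≥0∞ :=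
  ∫⁻ x, ∫⁻ y, ‖v x - v y‖ₑ ^ q * wt N (x - y)

lemma lintegral_smul_arg {N : ℕ} (L : ℝ) (hL : 0 < L) (f : EuclideanSpace ℝ (Fin N) → ℝ≥0∞)
     :
    ∫⁻ x, f (L • x) = ENNReal.ofReal ((L ^ N)⁻¹) * ∫⁻ x, f x := by
  have h1 := Measure.map_addHaar_smul (volume : Measure (EuclideanSpace ℝ (Fin N))) hL.ne'
  have h2 : ∫⁻ x, f (L • x) = ∫⁻ x, f x ∂(Measure.map (L • ·) volume) :=
    ((Homeomorph.smulOfNeZero L hL.ne').measurableEmbedding.lintegral_map f).symm
  rw [h2, h1, lintegral_smul_measure]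
  simp [abs_of_pos hL]

lemma J_translate {N : ℕ} (q : ℝ) (v : EuclideanSpace ℝ (Fin N) → ℝ) (a : EuclideanSpace ℝ (Fin N)) :
    J q (fun x => v (x - a)) = J q v := by
  unfold J
  have h1 : ∀ x : EuclideanSpace ℝ (Fin N),
      ∫⁻ y, ‖v (x - a) - v (y - a)‖ₑ ^ q * wt N (x - y) =
      (fun x' => ∫⁻ y, ‖v x' - v y‖ₑ ^ q * wt N (x' - y)) (x - a) := by
    intro x
    have := lintegral_sub_right_eq_self (μ := (volume : Measure (EuclideanSpace ℝ (Fin N))))
      (fun y => ‖v (x - a) - v y‖ₑ ^ q * wt N ((x - a) - y)) a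
    simp only [sub_sub_sub_cancel_right] at this
    exact this
  simp_rw [h1]
  exact lintegral_sub_right_eq_self (μ := (volume : Measure (EuclideanSpace ℝ (Fin N))))
    (fun x' => ∫⁻ y, ‖v x' - v y‖ₑ ^ q * wt N (x' - y)) a

lemma J_scale {N : ℕ} (q : ℝ) (v : EuclideanSpace ℝ (Fin N) → ℝ) (L : ℝ) (hL : 0 < L) :
    J q (fun x => v (L • x)) = ENNReal.ofReal (L ^ (1 - (N : ℝ))) * J q v := by
  unfold J
  have hw : ∀ h : EuclideanSpace ℝ (Fin N), wt N h = ENNReal.ofReal (L ^ (N + 1)) * wt N (L • h) := by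
    intro h
    unfold wt
    rw [← ENNReal.ofReal_mul (by positivity), norm_smul, Real.norm_of_nonneg hL.le, mul_pow]
    congr 1
    by_cases hh : ‖h‖ = 0
    · simp [hh]
    · field_simp
  have h1 : ∀ x : EuclideanSpace ℝ (Fin N),
      ∫⁻ y, ‖v (L • x) - v (L • y)‖ₑ ^ q * wt N (x - y) =
      (fun x' => ENNReal.ofReal (L ^ (N + 1)) * (ENNReal.ofReal ((L ^ N)⁻¹) *
        ∫⁻ y, ‖v x' - v y‖ₑ ^ q * wt N (x' - y))) (L • x) := by
    intro x
    simp only
    rw [← lintegral_smul_arg L hL (fun y => ‖v (L • x) - v y‖ₑ ^ q * wt N (L • x - y)),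
      ← lintegral_const_mul' _ _ ENNReal.ofReal_ne_top]
    congr 1
    ext y
    rw [hw (x - y), smul_sub]
    ring
  simp_rw [h1]
  rw [lintegral_smul_arg L hL (fun x' => ENNReal.ofReal (L ^ (N + 1)) * (ENNReal.ofReal ((L ^ N)⁻¹) *
        ∫⁻ y, ‖v x' - v y‖ₑ ^ q * wt N (x' - y)))]
  rw [lintegral_const_mul' _ _ ENNReal.ofReal_ne_top, lintegral_const_mul' _ _ ENNReal.ofReal_ne_top]
  rw [← mul_assoc, ← mul_assoc, ← ENNReal.ofReal_mul (by positivity), ← ENNReal.ofReal_mul (by positivity)]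
  congr 2
  rw [Real.rpow_sub hL, Real.rpow_one, Real.rpow_natCast]
  field_simp
  ring

/-- Jensen: `(∫ |η| W)^q ≤ (∫|η|)^(q-1) ∫ |η| W^q`. -/
lemma jensen_weight {α : Type*} [MeasurableSpace α] {μ : Measure α} {q : ℝ} (hq : 1 < q)
    {a W : α → ℝ≥0∞} (ha : AEMeasurable a μ) (hW : AEMeasurable W μ) :
    (∫⁻ z, a z * W z ∂μ) ^ q ≤ (∫⁻ z, a z ∂μ) ^ (q - 1) * ∫⁻ z, a z * W z ^ q ∂μ := by
  have hpq : q.HolderConjugate (q / (q - 1)) := Real.HolderConjugate.conjExponent hq
  have hq0 : 0 < q := by linarith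
  have hq1 : 0 < q - 1 := by linarith
  have h1 : ∀ z, a z * W z = (a z ^ (1 / q) * W z) * a z ^ ((q - 1) / q) := by
    intro z
    rw [mul_right_comm, ← ENNReal.rpow_add_of_nonneg _ _ (by positivity) (by positivity)]
    rw [← add_div, add_sub_cancel, div_self hq0.ne', ENNReal.rpow_one]
  have h2 := ENNReal.lintegral_mul_le_Lp_mul_Lq μ hpq (f := fun z => a z ^ (1 / q) * W z)
    (g := fun z => a z ^ ((q - 1) / q)) ((ha.pow_const _).mul hW) (ha.pow_const _)
  have h3 : ∀ z, (a z ^ (1 / q) * W z) ^ q = a z * W z ^ q := by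
    intro z
    rw [ENNReal.mul_rpow_of_nonneg _ _ hq0.le, ← ENNReal.rpow_mul, one_div, inv_mul_cancel₀ hq0.ne',
      ENNReal.rpow_one]
  have h4 : ∀ z, (a z ^ ((q - 1) / q)) ^ (q / (q - 1)) = a z := by
    intro z
    rw [← ENNReal.rpow_mul]
    have : (q - 1) / q * (q / (q - 1)) = 1 := by field_simp
    rw [this, ENNReal.rpow_one]
  simp only [Pi.mul_apply, h3, h4] at h2
  simp_rw [← h1] at h2
  calc (∫⁻ z, a z * W z ∂μ) ^ q ≤ ((∫⁻ z, a z * W z ^ q ∂μ) ^ (1 / q) *
        (∫⁻ z, a z ∂μ) ^ (1 / (q / (q - 1)))) ^ q := by gcongr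
    _ = (∫⁻ z, a z ∂μ) ^ (q - 1) * ∫⁻ z, a z * W z ^ q ∂μ := by
      rw [ENNReal.mul_rpow_of_nonneg _ _ hq0.le, ← ENNReal.rpow_mul, ← ENNReal.rpow_mul]
      have e1 : 1 / q * q = 1 := by field_simp
      have e2 : 1 / (q / (q - 1)) * q = q - 1 := by field_simp
      rw [e1, e2, ENNReal.rpow_one, mul_comm]

/-- The Gagliardo seminorm does not increase (up to the L¹ norm) under convolution. -/
lemma J_conv_le {N : ℕ} {q : ℝ} (hq : 1 < q) {η : EuclideanSpace ℝ (Fin N) → ℝ}
    (hη : Integrable η) {V : EuclideanSpace ℝ (Fin N) → ℝ} (hV : Continuous V)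
    (hVb : ∃ C, ∀ x, |V x| ≤ C) (ε : ℝ) :
    J q (fun x => ∫ z, η z * V (x - ε • z)) ≤ (∫⁻ z, ‖η z‖ₑ) ^ q * J q V := by
  obtain ⟨C, hC⟩ := hVb
  have hint : ∀ x, Integrable (fun z => η z * V (x - ε • z)) := by
    intro x
    refine hη.mul_bdd (c := C) ?_ ?_
    · exact (hV.comp (by fun_prop)).aestronglyMeasurable
    · exact Eventually.of_forall (fun z => by simpa using hC _)
  have hae : AEMeasurable (fun z => ‖η z‖ₑ) volume := hη.1.enorm
  have h1 : ∀ x y : EuclideanSpace ℝ (Fin N),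
      ‖(∫ z, η z * V (x - ε • z)) - ∫ z, η z * V (y - ε • z)‖ₑ ^ q * wt N (x - y)
      ≤ (∫⁻ z, ‖η z‖ₑ) ^ (q - 1) *
        ∫⁻ z, ‖η z‖ₑ * (‖V (x - ε • z) - V (y - ε • z)‖ₑ ^ q * wt N (x - y)) := by
    intro x y
    have hm : AEMeasurable (fun z => ‖V (x - ε • z) - V (y - ε • z)‖ₑ) volume := by
      have : Continuous (fun z => V (x - ε • z) - V (y - ε • z)) := by fun_prop
      exact this.enorm.measurable.aemeasurable
    have e1 : ‖(∫ z, η z * V (x - ε • z)) - ∫ z, η z * V (y - ε • z)‖ₑ ≤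
        ∫⁻ z, ‖η z‖ₑ * ‖V (x - ε • z) - V (y - ε • z)‖ₑ := by
      rw [← integral_sub (hint x) (hint y)]
      refine (enorm_integral_le_lintegral_enorm _).trans (le_of_eq ?_)
      congr 1; ext z
      rw [← mul_sub, enorm_mul]
    have e2 := jensen_weight hq hae hm
    calc _ ≤ (∫⁻ z, ‖η z‖ₑ * ‖V (x - ε • z) - V (y - ε • z)‖ₑ) ^ q * wt N (x - y) := by
            gcongr
      _ ≤ ((∫⁻ z, ‖η z‖ₑ) ^ (q - 1) * ∫⁻ z, ‖η z‖ₑ * ‖V (x - ε • z) - V (y - ε • z)‖ₑ ^ q) *
            wt N (x - y) := by gcongr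
      _ = _ := by
        rw [mul_assoc, ← lintegral_mul_const'']
        · congr 2; ext z; ring
        · exact hae.mul (hm.pow_const _)
  have hcontF : Continuous (fun p : (EuclideanSpace ℝ (Fin N) × EuclideanSpace ℝ (Fin N)) × EuclideanSpace ℝ (Fin N) =>
      V (p.1.1 - ε • p.2) - V (p.1.2 - ε • p.2)) := by fun_prop
  have hA : (∫⁻ z, ‖η z‖ₑ) ≠ ∞ := hη.2.ne
  unfold J
  calc (∫⁻ x, ∫⁻ y, ‖(∫ z, η z * V (x - ε • z)) - ∫ z, η z * V (y - ε • z)‖ₑ ^ q * wt N (x - y))
      ≤ ∫⁻ x, ∫⁻ y, (∫⁻ z, ‖η z‖ₑ) ^ (q - 1) *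
        ∫⁻ z, ‖η z‖ₑ * (‖V (x - ε • z) - V (y - ε • z)‖ₑ ^ q * wt N (x - y)) := by
          refine lintegral_mono (fun x => lintegral_mono (fun y => h1 x y))
    _ = (∫⁻ z, ‖η z‖ₑ) ^ (q - 1) * ∫⁻ x, ∫⁻ y,
        ∫⁻ z, ‖η z‖ₑ * (‖V (x - ε • z) - V (y - ε • z)‖ₑ ^ q * wt N (x - y)) := by
          have hne : (∫⁻ z, ‖η z‖ₑ) ^ (q - 1) ≠ ∞ := ENNReal.rpow_ne_top_of_nonneg (by linarith) hA
          simp_rw [lintegral_const_mul' _ _ hne]
    _ = (∫⁻ z, ‖η z‖ₑ) ^ (q - 1) * ∫⁻ x, ∫⁻ z, ∫⁻ y,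
        ‖η z‖ₑ * (‖V (x - ε • z) - V (y - ε • z)‖ₑ ^ q * wt N (x - y)) := by
          congr 2; ext x
          rw [lintegral_lintegral_swap]
          refine AEMeasurable.mul ?_ (Measurable.aemeasurable ?_)
          · exact hae.comp_snd
          · have := measurable_wt N
            have h2 : Continuous (fun p : EuclideanSpace ℝ (Fin N) × EuclideanSpace ℝ (Fin N) => V (x - ε • p.2) - V (p.1 - ε • p.2)) := by fun_prop
            exact (h2.enorm.measurable.pow_const _).mul (this.comp (by fun_prop))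
    _ = (∫⁻ z, ‖η z‖ₑ) ^ (q - 1) * ∫⁻ z, ∫⁻ x, ∫⁻ y,
        ‖η z‖ₑ * (‖V (x - ε • z) - V (y - ε • z)‖ₑ ^ q * wt N (x - y)) := by
          congr 1
          rw [lintegral_lintegral_swap]
          have hmeas : Measurable (fun p : (EuclideanSpace ℝ (Fin N) × EuclideanSpace ℝ (Fin N)) × EuclideanSpace ℝ (Fin N) =>
            (‖V (p.1.1 - ε • p.1.2) - V (p.2 - ε • p.1.2)‖ₑ ^ q * wt N (p.1.1 - p.2))) := by
            have h2 : Continuous (fun p : (EuclideanSpace ℝ (Fin N) × EuclideanSpace ℝ (Fin N)) × EuclideanSpace ℝ (Fin N) => V (p.1.1 - ε • p.1.2) - V (p.2 - ε • p.1.2)) := by fun_prop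
            exact (h2.enorm.measurable.pow_const _).mul ((measurable_wt N).comp (by fun_prop))
          have h3 := Measurable.lintegral_prod_right' (ν := (volume : Measure (EuclideanSpace ℝ (Fin N)))) hmeas
          simp only at h3
          have h4 : ∀ p : EuclideanSpace ℝ (Fin N) × EuclideanSpace ℝ (Fin N),
             ∫⁻ y, ‖η p.2‖ₑ * (‖V (p.1 - ε • p.2) - V (y - ε • p.2)‖ₑ ^ q * wt N (p.1 - y)) =
             ‖η p.2‖ₑ * ∫⁻ y, (‖V (p.1 - ε • p.2) - V (y - ε • p.2)‖ₑ ^ q * wt N (p.1 - y)) := by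
            intro p
            rw [lintegral_const_mul' _ _ (by simp)]
          simp only [Function.uncurry_def, h4]
          exact (hae.comp_snd).mul h3.aemeasurable
    _ = (∫⁻ z, ‖η z‖ₑ) ^ (q - 1) * ∫⁻ z, ‖η z‖ₑ * J q V := by
          congr 1; congr 1; ext z
          simp_rw [lintegral_const_mul' (‖η z‖ₑ) _ (by simp)]
          congr 1
          exact J_translate q V (ε • z)
    _ = (∫⁻ z, ‖η z‖ₑ) ^ q * ∫⁻ x, ∫⁻ y, ‖V x - V y‖ₑ ^ q * wt N (x - y) := by
          rw [lintegral_mul_const'' _ hae, ← mul_assoc]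
          congr 1
          nth_rw 2 [← ENNReal.rpow_one (∫⁻ z, ‖η z‖ₑ)]
          rw [← ENNReal.rpow_add_of_nonneg _ _ (by linarith) (by norm_num)]
          congr 1; ring

/-- the weighted product measure -/
noncomputable def mu2 (N : ℕ) : Measure (EuclideanSpace ℝ (Fin N) × EuclideanSpace ℝ (Fin N)) :=
  ((volume : Measure (EuclideanSpace ℝ (Fin N))).prod volume).withDensity (fun p => wt N (p.1 - p.2))

lemma mu2_ac (N : ℕ) : mu2 N ≪ (volume : Measure (EuclideanSpace ℝ (Fin N))).prod volume :=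
  withDensity_absolutelyContinuous _ _

lemma aesm_diff {N : ℕ} {h : EuclideanSpace ℝ (Fin N) → ℝ} (hh : AEStronglyMeasurable h volume) :
    AEStronglyMeasurable (fun p : EuclideanSpace ℝ (Fin N) × EuclideanSpace ℝ (Fin N) => h p.1 - h p.2)
      ((volume : Measure (EuclideanSpace ℝ (Fin N))).prod volume) :=
  hh.comp_fst.sub hh.comp_snd

lemma J_eq {N : ℕ} {q : ℝ} (hq : 0 < q) {h : EuclideanSpace ℝ (Fin N) → ℝ}
    (hh : AEStronglyMeasurable h volume) :
    J q h = (eLpNorm (fun p : EuclideanSpace ℝ (Fin N) × EuclideanSpace ℝ (Fin N) => h p.1 - h p.2)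
      (ENNReal.ofReal q) (mu2 N)) ^ q := by
  have h0 : ENNReal.ofReal q ≠ 0 := by simpa using hq
  rw [eLpNorm_eq_lintegral_rpow_enorm_toReal h0 ENNReal.ofReal_ne_top, ENNReal.toReal_ofReal hq.le,
    ← ENNReal.rpow_mul, one_div, inv_mul_cancel₀ hq.ne', ENNReal.rpow_one]
  unfold J mu2
  have hm := aesm_diff hh
  rw [lintegral_withDensity_eq_lintegral_mul₀]
  · rw [lintegral_prod]
    · simp only [Pi.mul_apply]
      congr 1; ext x; congr 1; ext y; rw [mul_comm]
    · exact AEMeasurable.mul (((measurable_wt N).comp (by fun_prop)).aemeasurable) (hm.enorm.pow_const _)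
  · exact ((measurable_wt N).comp (by fun_prop)).aemeasurable
  · exact (hm.enorm.pow_const _)

lemma J_hasSum_le {N : ℕ} {q : ℝ} (hq : 1 ≤ q) {h : EuclideanSpace ℝ (Fin N) → ℝ}
    {f : ℕ → EuclideanSpace ℝ (Fin N) → ℝ} (hf : ∀ k, AEStronglyMeasurable (f k) volume)
    (hh : AEStronglyMeasurable h volume)
    (hs : ∀ᵐ x, HasSum (fun k => f k x) (h x)) :
    (J q h) ^ (1 / q) ≤ ∑' k, (J q (f k)) ^ (1 / q) := by
  have hq0 : 0 < q := by linarith
  have key : ∀ {g : EuclideanSpace ℝ (Fin N) → ℝ}, AEStronglyMeasurable g volume →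
      (J q g) ^ (1 / q) = eLpNorm (fun p : EuclideanSpace ℝ (Fin N) × EuclideanSpace ℝ (Fin N) => g p.1 - g p.2)
      (ENNReal.ofReal q) (mu2 N) := by
    intro g hg
    rw [J_eq hq0 hg, ← ENNReal.rpow_mul, mul_one_div, div_self hq0.ne', ENNReal.rpow_one]
  rw [key hh]
  simp_rw [key (hf _)]
  set F : ℕ → (EuclideanSpace ℝ (Fin N) × EuclideanSpace ℝ (Fin N)) → ℝ :=
    fun k p => f k p.1 - f k p.2 with hF
  have hfm : ∀ k, AEStronglyMeasurable (F k) (mu2 N) := fun k => (aesm_diff (hf k)).mono_ac (mu2_ac N)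
  have hsum_m : ∀ n : ℕ, AEStronglyMeasurable (∑ k ∈ Finset.range n, F k) (mu2 N) := by
    intro n
    exact Finset.aestronglyMeasurable_sum _ (fun k _ => hfm k)
  have hlim : ∀ᵐ p ∂(mu2 N), Tendsto (fun n => (∑ k ∈ Finset.range n, F k) p) atTop
      (𝓝 (h p.1 - h p.2)) := by
    have h1 : ∀ᵐ p : EuclideanSpace ℝ (Fin N) × EuclideanSpace ℝ (Fin N)
        ∂((volume : Measure (EuclideanSpace ℝ (Fin N))).prod volume),
        HasSum (fun k => f k p.1) (h p.1) := Measure.quasiMeasurePreserving_fst.ae hs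
    have h2 : ∀ᵐ p : EuclideanSpace ℝ (Fin N) × EuclideanSpace ℝ (Fin N)
        ∂((volume : Measure (EuclideanSpace ℝ (Fin N))).prod volume),
        HasSum (fun k => f k p.2) (h p.2) := Measure.quasiMeasurePreserving_snd.ae hs
    have h3 := (mu2_ac N).ae_le (h1.and h2)
    filter_upwards [h3] with p hp
    have := (hp.1.sub hp.2).tendsto_sum_nat
    simpa [hF, Finset.sum_apply] using this
  refine (Lp.eLpNorm_lim_le_liminf_eLpNorm hsum_m _ hlim).trans ?_
  have hbd : ∀ n, eLpNorm (∑ k ∈ Finset.range n, F k) (ENNReal.ofReal q) (mu2 N) ≤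
      ∑' k, eLpNorm (F k) (ENNReal.ofReal q) (mu2 N) := by
    intro n
    have h1q : 1 ≤ ENNReal.ofReal q := by simpa using hq
    exact (eLpNorm_sum_le (fun k _ => hfm k) h1q).trans (ENNReal.sum_le_tsum _)
  refine (liminf_le_liminf (Eventually.of_forall hbd)).trans ?_
  simp [hF]

lemma lintegral_radial_finite {N : ℕ} (hN : 1 ≤ N) {q : ℝ} (hq : 1 < q) (K M : ℝ) (hK : 0 ≤ K) (hM : 0 ≤ M) :
    ∫⁻ h : EuclideanSpace ℝ (Fin N), ENNReal.ofReal ((min (K * ‖h‖) M) ^ q) * wt N h < ∞ := by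
  have : Nonempty (Fin N) := ⟨⟨0, hN⟩⟩
  have hnt : Nontrivial (EuclideanSpace ℝ (Fin N)) := inferInstance
  have h1 : Integrable (fun h : EuclideanSpace ℝ (Fin N) =>
      (fun r : ℝ => (min (K * r) M) ^ q * (1 / r ^ (N + 1))) ‖h‖) volume := by
    refine (integrable_fun_norm_addHaar (volume : Measure (EuclideanSpace ℝ (Fin N)))
      (f := fun r : ℝ => (min (K * r) M) ^ q * (1 / r ^ (N + 1)))).2 ?_
    simp only [finrank_euclideanSpace, Fintype.card_fin, smul_eq_mul]
    have hcongr : ∀ r ∈ Ioi (0 : ℝ), r ^ (N - 1) * ((min (K * r) M) ^ q * (1 / r ^ (N + 1))) =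
        (min (K * r) M) ^ q * r ^ (-2 : ℝ) := by
      intro r hr
      have hr0 : (0 : ℝ) < r := hr
      obtain ⟨n, rfl⟩ : ∃ n, N = n + 1 := ⟨N - 1, by omega⟩
      have : r ^ (-2 : ℝ) = 1 / r ^ 2 := by
        rw [Real.rpow_neg hr0.le]; norm_num
      rw [this, Nat.add_sub_cancel]
      field_simp
      ring
    rw [integrableOn_congr_fun hcongr measurableSet_Ioi]
    have hmeas : AEStronglyMeasurable (fun r : ℝ => (min (K * r) M) ^ q * r ^ (-2 : ℝ)) volume := by
      apply Measurable.aestronglyMeasurable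
      fun_prop
    rw [← Ioc_union_Ioi_eq_Ioi (zero_le_one' ℝ), integrableOn_union]
    constructor
    · have h2 : IntegrableOn (fun r : ℝ => K ^ q * r ^ (q - 2)) (Ioc 0 1) := by
        have := (intervalIntegral.intervalIntegrable_rpow' (a := 0) (b := 1) (r := q - 2) (by linarith)).const_mul (K ^ q)
        rwa [intervalIntegrable_iff_integrableOn_Ioc_of_le zero_le_one] at this
      refine Integrable.mono' h2 hmeas.restrict ?_
      rw [ae_restrict_iff' measurableSet_Ioc]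
      refine Eventually.of_forall fun r hr => ?_
      have hr0 : 0 < r := hr.1
      have hmin : 0 ≤ min (K * r) M := le_min (by positivity) hM
      rw [Real.norm_of_nonneg (by positivity)]
      calc (min (K * r) M) ^ q * r ^ (-2 : ℝ) ≤ (K * r) ^ q * r ^ (-2 : ℝ) := by
            gcongr; exact min_le_left _ _
        _ = K ^ q * r ^ (q - 2) := by
            rw [Real.mul_rpow hK hr0.le, mul_assoc, ← Real.rpow_add hr0]; congr 2
    · have h2 : IntegrableOn (fun r : ℝ => M ^ q * r ^ (-2 : ℝ)) (Ioi 1) :=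
        (integrableOn_Ioi_rpow_of_lt (by norm_num) zero_lt_one).const_mul _
      refine Integrable.mono' h2 hmeas.restrict ?_
      rw [ae_restrict_iff' measurableSet_Ioi]
      refine Eventually.of_forall fun r hr => ?_
      have hr0 : 0 < r := lt_trans zero_lt_one hr
      have hmin : 0 ≤ min (K * r) M := le_min (by positivity) hM
      rw [Real.norm_of_nonneg (by positivity)]
      gcongr
      exact min_le_right _ _
  have h2 := h1.2
  rw [hasFiniteIntegral_iff_enorm] at h2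
  refine lt_of_le_of_lt (lintegral_mono fun h => ?_) h2
  have hmin : 0 ≤ min (K * ‖h‖) M := le_min (by positivity) hM
  unfold wt
  rw [← ENNReal.ofReal_mul (by positivity), ← ofReal_norm, Real.norm_of_nonneg (by positivity)]

lemma J_lt_top {N : ℕ} (hN : 1 ≤ N) {q : ℝ} (hq : 1 < q) {v : EuclideanSpace ℝ (Fin N) → ℝ}
    (hv : ContDiff ℝ 1 v) (hc : HasCompactSupport v) : J q v < ∞ := by
  have hq0 : 0 < q := by linarith
  obtain ⟨K, hK⟩ := ContDiff.lipschitzWith_of_hasCompactSupport hc hv (by simp)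
  obtain ⟨M, hM⟩ := hv.continuous.bounded_above_of_compact_support hc
  have hM0 : 0 ≤ M := (norm_nonneg _).trans (hM 0)
  set S := tsupport v with hS
  have hSc : IsCompact S := hc
  have hSm : MeasurableSet S := (isClosed_tsupport v).measurableSet
  have hSfin : volume S < ∞ := hSc.measure_lt_top
  -- pointwise bound
  have hpt : ∀ x h : EuclideanSpace ℝ (Fin N), ‖v x - v (x + h)‖ₑ ^ q ≤
      (S.indicator 1 x + S.indicator 1 (x + h)) * ENNReal.ofReal ((min (K * ‖h‖) (2 * M)) ^ q) := by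
    intro x h
    by_cases hx : x ∈ S ∨ x + h ∈ S
    · have h1 : 1 ≤ (S.indicator 1 x + S.indicator 1 (x + h) : ℝ≥0∞) := by
        rcases hx with hx | hx
        · simp [hx]
        · simp [hx]
      have h2 : ‖v x - v (x + h)‖ ≤ min (K * ‖h‖) (2 * M) := by
        refine le_min ?_ ?_
        · have := hK.dist_le_mul x (x + h)
          simpa [dist_eq_norm] using this
        · calc ‖v x - v (x + h)‖ ≤ ‖v x‖ + ‖v (x + h)‖ := norm_sub_le _ _
            _ ≤ 2 * M := by linarith [hM x, hM (x + h)]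
      calc ‖v x - v (x + h)‖ₑ ^ q = ENNReal.ofReal (‖v x - v (x + h)‖ ^ q) := by
            rw [← ofReal_norm, ENNReal.ofReal_rpow_of_nonneg (norm_nonneg _) hq0.le]
        _ ≤ ENNReal.ofReal ((min (K * ‖h‖) (2 * M)) ^ q) := by gcongr
        _ ≤ _ := le_mul_of_one_le_left (by simp) h1
    · push Not at hx
      have e1 : v x = 0 := image_eq_zero_of_notMem_tsupport hx.1
      have e2 : v (x + h) = 0 := image_eq_zero_of_notMem_tsupport hx.2
      simp [e1, e2, hq0]
  unfold J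
  calc ∫⁻ x, ∫⁻ y, ‖v x - v y‖ₑ ^ q * wt N (x - y)
      = ∫⁻ x, ∫⁻ h, ‖v x - v (x + h)‖ₑ ^ q * wt N h := by
        congr 1; ext x
        rw [← lintegral_add_left_eq_self (μ := (volume : Measure (EuclideanSpace ℝ (Fin N)))) _ x]
        congr 1; ext h
        congr 1
        unfold wt
        simp
    _ = ∫⁻ h, ∫⁻ x, ‖v x - v (x + h)‖ₑ ^ q * wt N h := by
        rw [lintegral_lintegral_swap]
        have h2 : Continuous (fun p : EuclideanSpace ℝ (Fin N) × EuclideanSpace ℝ (Fin N) => v p.1 - v (p.1 + p.2)) := by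
          have := hv.continuous
          fun_prop
        exact ((h2.enorm.measurable.pow_const _).mul ((measurable_wt N).comp (by fun_prop))).aemeasurable
    _ ≤ ∫⁻ h, ∫⁻ x, (S.indicator 1 x + S.indicator 1 (x + h)) *
          (ENNReal.ofReal ((min (K * ‖h‖) (2 * M)) ^ q) * wt N h) := by
        refine lintegral_mono fun h => lintegral_mono fun x => ?_
        simp only
        rw [← mul_assoc]
        gcongr
        exact hpt x h
    _ = ∫⁻ h, (2 * volume S) * (ENNReal.ofReal ((min (K * ‖h‖) (2 * M)) ^ q) * wt N h) := by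
        congr 1; ext h
        rw [lintegral_mul_const]
        · congr 1
          rw [lintegral_add_left]
          · have e1 : ∫⁻ x : EuclideanSpace ℝ (Fin N), S.indicator (1 : EuclideanSpace ℝ (Fin N) → ℝ≥0∞) x = volume S := by
              rw [lintegral_indicator_one hSm]
            have e2 : ∫⁻ x : EuclideanSpace ℝ (Fin N), S.indicator (1 : EuclideanSpace ℝ (Fin N) → ℝ≥0∞) (x + h) = volume S := by
              rw [lintegral_add_right_eq_self (μ := (volume : Measure (EuclideanSpace ℝ (Fin N)))) (fun x => S.indicator (1 : EuclideanSpace ℝ (Fin N) → ℝ≥0∞) x) h, e1]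
            rw [e1, e2, two_mul]
          · exact measurable_one.indicator hSm
        · exact (measurable_one.indicator hSm).add ((measurable_one.indicator hSm).comp (by fun_prop))
    _ < ∞ := by
        rw [lintegral_const_mul' _ _ (by finiteness)]
        exact ENNReal.mul_lt_top (by finiteness) (lintegral_radial_finite hN hq K (2 * M) (by positivity) (by positivity))

/-- frequencies -/
noncomputable def Lk (m k : ℕ) : ℝ := 2 ^ (2 ^ (m * k))

lemma Lk_pos (m k : ℕ) : 0 < Lk m k := by unfold Lk; positivity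

lemma one_le_Lk (m k : ℕ) : 1 ≤ Lk m k := by unfold Lk; exact one_le_pow₀ (by norm_num)

lemma numeric {q : ℝ} (hq : 1 < q) {m : ℕ} (hm : q ≤ m) {ε : ℝ} (hε : 0 < ε) (hε2 : ε < 1 / 2) :
    (∑' k : ℕ, ENNReal.ofReal (2 ^ k * min 1 (1 / (Lk m k * ε)))) ^ q ≤
      ENNReal.ofReal (12 ^ q * (2 / Real.log 2) * |Real.log ε|) := by
  have hm1 : 1 ≤ m := by
    have : (1 : ℝ) < m := lt_of_lt_of_le hq hm
    exact_mod_cast this.le
  -- choose n
  obtain ⟨n, hn1, hn2, hn3⟩ : ∃ n : ℕ, 1 ≤ n ∧ 1 / ε ≤ 2 ^ (n + 1) ∧ (2 : ℝ) ^ n ≤ 1 / ε := by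
    have h1 : (1 : ℝ) ≤ 1 / ε := by rw [le_div_iff₀ hε]; linarith
    obtain ⟨n, hn⟩ := exists_nat_pow_near h1 (by norm_num : (1 : ℝ) < 2)
    refine ⟨n, ?_, hn.2.le, hn.1⟩
    by_contra hcon
    have : n = 0 := by omega
    subst this
    have h2 : (2 : ℝ) < 1 / ε := by rw [lt_div_iff₀ hε]; linarith
    have := hn.2
    norm_num at this
    norm_num at h2
    linarith
  have hlog : (n : ℝ) + 1 ≤ (2 / Real.log 2) * |Real.log ε| := by
    have hl2 : 0 < Real.log 2 := Real.log_pos (by norm_num)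
    have h1 : |Real.log ε| = Real.log (1 / ε) := by
      rw [abs_of_neg (Real.log_neg hε (by linarith)), one_div, Real.log_inv]
    have h2 : (n : ℝ) * Real.log 2 ≤ |Real.log ε| := by
      rw [h1, ← Real.log_pow]
      exact Real.log_le_log (by positivity) hn3
    have h3 : (1 : ℝ) ≤ n := by exact_mod_cast hn1
    rw [div_mul_eq_mul_div, le_div_iff₀ hl2]
    nlinarith
  -- choose K
  obtain ⟨K, hK1, hK2⟩ : ∃ K : ℕ, 2 ^ (m * K) ≤ n + 1 ∧ n + 1 < 2 ^ (m * (K + 1)) := by
    have hb : (1 : ℕ) < 2 ^ m := Nat.one_lt_two_pow (by omega)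
    refine ⟨Nat.log (2 ^ m) (n + 1), ?_, ?_⟩
    · have := Nat.pow_log_le_self (2 ^ m) (x := n + 1) (by omega)
      rwa [← pow_mul] at this
    · have := Nat.lt_pow_succ_log_self hb (n + 1)
      rwa [← pow_mul] at this
  -- termwise bound
  have hterm : ∀ k : ℕ, 2 ^ k * min 1 (1 / (Lk m k * ε)) ≤
      (if k < K + 2 then (2 : ℝ) ^ k else 0) + 4 * (1 / 2) ^ k := by
    intro k
    by_cases hk : k < K + 2
    · rw [if_pos hk]
      have h1 : min 1 (1 / (Lk m k * ε)) ≤ 1 := min_le_left _ _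
      have h2 : (0 : ℝ) ≤ 4 * (1 / 2) ^ k := by positivity
      nlinarith [pow_pos (show (0 : ℝ) < 2 by norm_num) k]
    · rw [if_neg hk, zero_add]
      push Not at hk
      obtain ⟨i, rfl⟩ : ∃ i, k = i + 1 := ⟨k - 1, by omega⟩
      have hi : K + 1 ≤ i := by omega
      -- exponent comparison
      have e1 : n + 1 + 2 ^ i ≤ 2 ^ (m * (i + 1)) := by
        have a1 : n + 1 ≤ 2 ^ (m * i) := hK2.le.trans (Nat.pow_le_pow_right (by norm_num) (Nat.mul_le_mul_left m hi))
        have a2 : 2 ^ i ≤ 2 ^ (m * i) := Nat.pow_le_pow_right (by norm_num) (by nlinarith)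
        calc n + 1 + 2 ^ i ≤ 2 ^ (m * i) + 2 ^ (m * i) := by omega
          _ = 2 ^ (m * i + 1) := by ring
          _ ≤ 2 ^ (m * (i + 1)) := Nat.pow_le_pow_right (by norm_num) (by nlinarith)
      have e2 : 2 * i ≤ 2 ^ i := by
        have : ∀ j : ℕ, 2 * (j + 1) ≤ 2 ^ (j + 1) := by
          intro j
          induction j with
          | zero => norm_num
          | succ j ih => rw [pow_succ]; omega
        have h0 : 1 ≤ i := by omega
        obtain ⟨j, rfl⟩ : ∃ j, i = j + 1 := ⟨i - 1, by omega⟩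
        exact this j
      have e3 : 1 / (Lk m (i + 1) * ε) ≤ 1 / 2 ^ (2 * i) := by
        unfold Lk
        have : (2 : ℝ) ^ (2 * i) ≤ 2 ^ (2 ^ (m * (i + 1))) * ε := by
          have b1 : (2 : ℝ) ^ (2 * i) * 2 ^ (n + 1) ≤ 2 ^ (2 ^ (m * (i + 1))) := by
            rw [← pow_add]
            exact pow_le_pow_right₀ (by norm_num) (by omega)
          have b2 : 1 ≤ 2 ^ (n + 1) * ε := by
            rw [div_le_iff₀ hε] at hn2; exact hn2
          calc (2 : ℝ) ^ (2 * i) = 2 ^ (2 * i) * 1 := by ring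
            _ ≤ 2 ^ (2 * i) * (2 ^ (n + 1) * ε) := by gcongr
            _ = (2 ^ (2 * i) * 2 ^ (n + 1)) * ε := by ring
            _ ≤ _ := by gcongr
        exact one_div_le_one_div_of_le (by positivity) this
      calc (2 : ℝ) ^ (i + 1) * min 1 (1 / (Lk m (i + 1) * ε)) ≤ 2 ^ (i + 1) * (1 / 2 ^ (2 * i)) := by
            gcongr; exact (min_le_right _ _).trans e3
        _ = 4 * (1 / 2) ^ (i + 1) := by
            have : (2 : ℝ) ^ (2 * i) = 2 ^ i * 2 ^ i := by rw [two_mul, pow_add]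
            rw [this, one_div_pow, pow_succ]
            field_simp
            norm_num
  have hsum : (∑' k : ℕ, ENNReal.ofReal (2 ^ k * min 1 (1 / (Lk m k * ε)))) ≤ ENNReal.ofReal (12 * 2 ^ K) := by
    calc (∑' k : ℕ, ENNReal.ofReal (2 ^ k * min 1 (1 / (Lk m k * ε))))
        ≤ ∑' k : ℕ, (ENNReal.ofReal (if k < K + 2 then (2 : ℝ) ^ k else 0) + ENNReal.ofReal (4 * (1 / 2) ^ k)) := by
          refine ENNReal.tsum_le_tsum fun k => ?_
          rw [← ENNReal.ofReal_add (by split_ifs <;> positivity) (by positivity)]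
          exact ENNReal.ofReal_le_ofReal (hterm k)
      _ = (∑' k : ℕ, ENNReal.ofReal (if k < K + 2 then (2 : ℝ) ^ k else 0)) +
            ∑' k : ℕ, ENNReal.ofReal (4 * (1 / 2) ^ k) := ENNReal.tsum_add
      _ ≤ ENNReal.ofReal (2 ^ (K + 2)) + ENNReal.ofReal 8 := by
          gcongr
          · rw [tsum_eq_sum (s := Finset.range (K + 2))]
            · rw [← ENNReal.ofReal_sum_of_nonneg (fun i _ => by split_ifs <;> positivity)]
              apply ENNReal.ofReal_le_ofReal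
              calc ∑ k ∈ Finset.range (K + 2), (if k < K + 2 then (2 : ℝ) ^ k else 0)
                  = ∑ k ∈ Finset.range (K + 2), (2 : ℝ) ^ k := by
                    refine Finset.sum_congr rfl fun k hk => ?_
                    rw [if_pos (Finset.mem_range.1 hk)]
                _ = 2 ^ (K + 2) - 1 := by
                    rw [geom_sum_eq (by norm_num)]; norm_num
                _ ≤ 2 ^ (K + 2) := by linarith
            · intro k hk
              have : ¬ k < K + 2 := by simpa using hk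
              simp [this]
          · rw [← ENNReal.ofReal_tsum_of_nonneg (fun k => by positivity)]
            · apply ENNReal.ofReal_le_ofReal
              rw [tsum_mul_left, tsum_geometric_of_lt_one (by norm_num) (by norm_num)]
              norm_num
            · exact (summable_geometric_of_lt_one (by norm_num) (by norm_num)).mul_left _
      _ ≤ ENNReal.ofReal (12 * 2 ^ K) := by
          rw [← ENNReal.ofReal_add (by positivity) (by positivity)]
          apply ENNReal.ofReal_le_ofReal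
          have : (1 : ℝ) ≤ 2 ^ K := one_le_pow₀ (by norm_num)
          rw [pow_add]
          linarith
  calc (∑' k : ℕ, ENNReal.ofReal (2 ^ k * min 1 (1 / (Lk m k * ε)))) ^ q
      ≤ (ENNReal.ofReal (12 * 2 ^ K)) ^ q := by gcongr
    _ = ENNReal.ofReal (12 ^ q * ((2 : ℝ) ^ K) ^ q) := by
        rw [ENNReal.ofReal_rpow_of_nonneg (by positivity) (by linarith), Real.mul_rpow (by norm_num) (by positivity)]
    _ ≤ ENNReal.ofReal (12 ^ q * (2 / Real.log 2) * |Real.log ε|) := by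
        apply ENNReal.ofReal_le_ofReal
        rw [mul_assoc]
        gcongr
        calc ((2 : ℝ) ^ K) ^ q ≤ ((2 : ℝ) ^ K) ^ (m : ℝ) :=
              Real.rpow_le_rpow_of_exponent_le (one_le_pow₀ (by norm_num)) hm
          _ = ((2 ^ (m * K) : ℕ) : ℝ) := by
              rw [Real.rpow_natCast, ← pow_mul, mul_comm K m]; push_cast; rfl
          _ ≤ ((n + 1 : ℕ) : ℝ) := by exact_mod_cast hK1
          _ = n + 1 := by push_cast; rfl
          _ ≤ _ := hlog

end Pool.Agent.H57.Besov
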