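import Mathlib
import Pool.Agent.H57.Besov.Basic

open MeasureTheory Filter Topology Set
open scoped ENNReal NNReal ContDiff

namespace Pool.Agent.H57.Besov

variable {N : ℕ}

/-- centres -/
noncomputable def ctr (hN : 1 ≤ N) (k : ℕ) : EuclideanSpace ℝ (Fin N) :=
  EuclideanSpace.single (⟨0, hN⟩ : Fin N) (4 * (k : ℝ))

/-- direction -/
noncomputable def dir (hN : 1 ≤ N) : EuclideanSpace ℝ (Fin N) :=
  EuclideanSpace.single (⟨0, hN⟩ : Fin N) (1 : ℝ)

lemma norm_dir (hN : 1 ≤ N) : ‖dir hN‖ = 1 := by simp [dir]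

lemma ctr_sub (hN : 1 ≤ N) (j k : ℕ) : ‖ctr hN j - ctr hN k‖ = 4 * |(j : ℝ) - k| := by
  unfold ctr
  rw [← PiLp.single_sub]
  simp [← mul_sub]

/-- bump function -/
noncomputable def Psi (N : ℕ) : EuclideanSpace ℝ (Fin N) → ℝ :=
  (⟨1 / 4, 1 / 2, by norm_num, by norm_num⟩ : ContDiffBump (0 : EuclideanSpace ℝ (Fin N)))

lemma Psi_contDiff (N : ℕ) : ContDiff ℝ ∞ (Psi N) := ContDiffBump.contDiff _

lemma Psi_compact (N : ℕ) : HasCompactSupport (Psi N) := ContDiffBump.hasCompactSupport _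

lemma Psi_zero (N : ℕ) {x : EuclideanSpace ℝ (Fin N)} (hx : 1 / 2 ≤ ‖x‖) : Psi N x = 0 := by
  unfold Psi
  apply ContDiffBump.zero_of_le_dist
  simpa using hx

lemma Psi_one (N : ℕ) : Psi N 0 = 1 := by
  unfold Psi
  apply ContDiffBump.one_of_mem_closedBall
  simp

/-- profile -/
noncomputable def prof (hN : 1 ≤ N) : EuclideanSpace ℝ (Fin N) → ℝ :=
  fun x => fderiv ℝ (Psi N) x (dir hN)

lemma prof_contDiff (hN : 1 ≤ N) : ContDiff ℝ ∞ (prof hN) := by
  unfold prof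
  have := (Psi_contDiff N).fderiv_right (m := ∞) (by simp)
  exact this.clm_apply contDiff_const

lemma prof_compact (hN : 1 ≤ N) : HasCompactSupport (prof hN) :=
  (Psi_compact N).fderiv_apply ℝ _

lemma prof_zero (hN : 1 ≤ N) {x : EuclideanSpace ℝ (Fin N)} (hx : 1 / 2 < ‖x‖) : prof hN x = 0 := by
  unfold prof
  have h1 : Psi N =ᶠ[𝓝 x] fun _ => (0 : ℝ) := by
    have : {y : EuclideanSpace ℝ (Fin N) | 1 / 2 < ‖y‖} ∈ 𝓝 x :=
      (isOpen_lt continuous_const continuous_norm).mem_nhds hx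
    filter_upwards [this] with y hy
    exact Psi_zero N (le_of_lt hy)
  rw [h1.fderiv_eq]
  simp

lemma prof_ne (hN : 1 ≤ N) : ∃ x, prof hN x ≠ 0 := by
  by_contra hcon
  push Not at hcon
  -- Psi along the line
  let g : ℝ → ℝ := fun t => Psi N (t • dir hN)
  have hd : ∀ t, HasDerivAt g 0 t := by
    intro t
    have h1 : HasFDerivAt (Psi N) (fderiv ℝ (Psi N) (t • dir hN)) (t • dir hN) :=
      ((Psi_contDiff N).differentiable (by simp) _).hasFDerivAt
    have h2 : HasDerivAt (fun t : ℝ => t • dir hN) (dir hN) t := by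
      simpa using (hasDerivAt_id t).smul_const (dir hN)
    have h3 := h1.comp_hasDerivAt t h2
    have h4 : fderiv ℝ (Psi N) (t • dir hN) (dir hN) = 0 := hcon _
    rw [h4] at h3
    exact h3
  have hc : g 1 = g 0 := is_const_of_deriv_eq_zero (fun t => (hd t).differentiableAt) (fun t => (hd t).deriv) 1 0
  have h1 : g 1 = 0 := Psi_zero N (by rw [one_smul, norm_dir]; norm_num)
  have h0 : g 0 = 1 := by simp only [g, zero_smul]; exact Psi_one N
  rw [h1, h0] at hc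
  exact zero_ne_one hc

/-- amplitudes -/
noncomputable def amp (N : ℕ) (q : ℝ) (m k : ℕ) : ℝ := 2 ^ k * (Lk m k) ^ (((N : ℝ) - 1) / q)

lemma amp_pos (N : ℕ) (q : ℝ) (m k : ℕ) : 0 < amp N q m k := by
  unfold amp
  have := Lk_pos m k
  positivity

/-- the building blocks -/
noncomputable def blk (hN : 1 ≤ N) (q : ℝ) (m k : ℕ) (x : EuclideanSpace ℝ (Fin N)) : ℝ :=
  amp N q m k * prof hN (Lk m k • (x - ctr hN k))

/-- the function -/
noncomputable def U (hN : 1 ≤ N) (q : ℝ) (m : ℕ) (x : EuclideanSpace ℝ (Fin N)) : ℝ :=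
  ∑' k, blk hN q m k x

lemma two_le_Lk (m k : ℕ) : 2 ≤ Lk m k := by
  unfold Lk
  calc (2 : ℝ) = 2 ^ 1 := by norm_num
    _ ≤ 2 ^ (2 ^ (m * k)) := pow_le_pow_right₀ (by norm_num) Nat.one_le_two_pow

lemma blk_zero (hN : 1 ≤ N) (q : ℝ) (m k : ℕ) {x : EuclideanSpace ℝ (Fin N)}
    (hx : 1 / 2 < Lk m k * ‖x - ctr hN k‖) : blk hN q m k x = 0 := by
  unfold blk
  rw [prof_zero hN, mul_zero]
  rwa [norm_smul, Real.norm_of_nonneg (Lk_pos m k).le]

lemma blk_zero' (hN : 1 ≤ N) (q : ℝ) (m k : ℕ) {x : EuclideanSpace ℝ (Fin N)}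
    (hx : 1 / 2 < ‖x - ctr hN k‖) : blk hN q m k x = 0 := by
  apply blk_zero
  have := one_le_Lk m k
  nlinarith [norm_nonneg (x - ctr hN k)]

lemma blk_zero_of_near (hN : 1 ≤ N) (q : ℝ) (m : ℕ) {j k : ℕ} (hjk : j ≠ k) {x : EuclideanSpace ℝ (Fin N)}
    (hx : ‖x - ctr hN k‖ ≤ 2) : blk hN q m j x = 0 := by
  apply blk_zero'
  have h1 : 4 ≤ ‖ctr hN j - ctr hN k‖ := by
    rw [ctr_sub]
    have : (1 : ℝ) ≤ |(j : ℝ) - k| := by
      have h2 : (1 : ℤ) ≤ |(j : ℤ) - k| := Int.one_le_abs (by omega)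
      exact_mod_cast h2
    linarith
  have h2 : ‖ctr hN j - ctr hN k‖ ≤ ‖x - ctr hN j‖ + ‖x - ctr hN k‖ := by
    have : ctr hN j - ctr hN k = (x - ctr hN k) - (x - ctr hN j) := by abel
    rw [this]
    linarith [norm_sub_le (x - ctr hN k) (x - ctr hN j)]
  linarith

lemma exists_single (hN : 1 ≤ N) (q : ℝ) (m : ℕ) (x : EuclideanSpace ℝ (Fin N)) :
    ∃ k, ∀ j, j ≠ k → blk hN q m j x = 0 := by
  by_cases h : ∃ k, ‖x - ctr hN k‖ ≤ 2
  · obtain ⟨k, hk⟩ := h
    exact ⟨k, fun j hj => blk_zero_of_near hN q m hj hk⟩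
  · push Not at h
    exact ⟨0, fun j _ => blk_zero' hN q m j (by linarith [h j])⟩

lemma hasSum_U (hN : 1 ≤ N) (q : ℝ) (m : ℕ) (x : EuclideanSpace ℝ (Fin N)) :
    HasSum (fun k => blk hN q m k x) (U hN q m x) := by
  obtain ⟨k, hk⟩ := exists_single hN q m x
  have := hasSum_single k (f := fun k => blk hN q m k x) hk
  exact this.summable.hasSum

lemma U_eq_of_single (hN : 1 ≤ N) (q : ℝ) (m : ℕ) {x : EuclideanSpace ℝ (Fin N)} {k : ℕ}
    (hk : ∀ j, j ≠ k → blk hN q m j x = 0) : U hN q m x = blk hN q m k x :=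
  (hasSum_single k (f := fun k => blk hN q m k x) hk).tsum_eq

lemma blk_continuous (hN : 1 ≤ N) (q : ℝ) (m k : ℕ) : Continuous (blk hN q m k) := by
  unfold blk
  have := (prof_contDiff hN).continuous
  fun_prop

lemma measurable_U (hN : 1 ≤ N) (q : ℝ) (m : ℕ) : Measurable (U hN q m) := by
  refine measurable_of_tendsto_metrizable (f := fun n x => ∑ k ∈ Finset.range n, blk hN q m k x) ?_ ?_
  · intro n
    exact Finset.measurable_fun_sum _ (fun k _ => (blk_continuous hN q m k).measurable)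
  · rw [tendsto_pi_nhds]
    intro x
    exact (hasSum_U hN q m x).tendsto_sum_nat

lemma enorm_U_rpow (hN : 1 ≤ N) {q : ℝ} (m : ℕ) {r : ℝ} (hr : 0 < r) (x : EuclideanSpace ℝ (Fin N)) :
    ‖U hN q m x‖ₑ ^ r = ∑' k, ‖blk hN q m k x‖ₑ ^ r := by
  obtain ⟨k, hk⟩ := exists_single hN q m x
  rw [U_eq_of_single hN q m hk]
  rw [tsum_eq_single k]
  intro j hj
  rw [hk j hj]
  simp [hr]

lemma lintegral_blk (hN : 1 ≤ N) {q : ℝ} (m k : ℕ) {r : ℝ} (hr : 0 < r) :
    ∫⁻ x, ‖blk hN q m k x‖ₑ ^ r = ENNReal.ofReal (amp N q m k ^ r * ((Lk m k) ^ N)⁻¹) *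
      ∫⁻ x, ‖prof hN x‖ₑ ^ r := by
  unfold blk
  have h1 : ∀ x, ‖amp N q m k * prof hN (Lk m k • (x - ctr hN k))‖ₑ ^ r =
      ENNReal.ofReal (amp N q m k ^ r) * (fun y => ‖prof hN (Lk m k • y)‖ₑ ^ r) (x - ctr hN k) := by
    intro x
    rw [enorm_mul, ENNReal.mul_rpow_of_nonneg _ _ hr.le, ← ofReal_norm, Real.norm_of_nonneg (amp_pos N q m k).le,
      ENNReal.ofReal_rpow_of_nonneg (amp_pos N q m k).le hr.le]
  simp_rw [h1]
  rw [lintegral_const_mul' _ _ ENNReal.ofReal_ne_top,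
    lintegral_sub_right_eq_self (μ := (volume : Measure (EuclideanSpace ℝ (Fin N)))) (fun y => ‖prof hN (Lk m k • y)‖ₑ ^ r),
    lintegral_smul_arg (Lk m k) (Lk_pos m k) (fun y => ‖prof hN y‖ₑ ^ r), ← mul_assoc, ← ENNReal.ofReal_mul]
  have := amp_pos N q m k
  positivity

lemma amp_rpow_q {q : ℝ} (hq : 1 < q) (m k : ℕ) :
    amp N q m k ^ q = (2 ^ k) ^ q * (Lk m k) ^ ((N : ℝ) - 1) := by
  unfold amp
  have hL := Lk_pos m k
  rw [Real.mul_rpow (by positivity) (by positivity), ← Real.rpow_mul hL.le, div_mul_cancel₀ _ (by linarith)]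

lemma two_mul_le_two_pow (t : ℕ) : 2 * t ≤ 2 ^ t := by
  have : ∀ j : ℕ, 2 * (j + 1) ≤ 2 ^ (j + 1) := by
    intro j
    induction j with
    | zero => norm_num
    | succ j ih => rw [pow_succ]; omega
  cases t with
  | zero => simp
  | succ j => exact this j

/-- `2^(m k) / L_k ≤ 2^(-k)` -/
lemma pow_div_Lk {m : ℕ} (hm : 1 ≤ m) (k : ℕ) : (2 : ℝ) ^ (m * k) * (Lk m k)⁻¹ ≤ (1 / 2) ^ k := by
  unfold Lk
  have h1 := two_mul_le_two_pow (m * k)
  have h2 : k ≤ m * k := by nlinarith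
  have h3 : m * k + k ≤ 2 ^ (m * k) := by omega
  have h4 : (2 : ℝ) ^ (m * k) * 2 ^ k ≤ 2 ^ (2 ^ (m * k)) := by
    rw [← pow_add]; exact pow_le_pow_right₀ (by norm_num) h3
  rw [one_div_pow, ← div_eq_mul_inv, div_le_div_iff₀ (by positivity) (by positivity)]
  simpa using h4

lemma lintegral_prof_lt_top (hN : 1 ≤ N) {r : ℝ} (hr : 0 < r) : ∫⁻ x, ‖prof hN x‖ₑ ^ r < ⊤ := by
  have h : MemLp (prof hN) (ENNReal.ofReal r) volume :=
    (prof_contDiff hN).continuous.memLp_of_hasCompactSupport (prof_compact hN)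
  have h0 : ENNReal.ofReal r ≠ 0 := by simpa using hr
  have := (eLpNorm_lt_top_iff_lintegral_rpow_enorm_lt_top h0 ENNReal.ofReal_ne_top).1 h.2
  rwa [ENNReal.toReal_ofReal hr.le] at this

lemma lintegral_prof_pos (hN : 1 ≤ N) {r : ℝ} (hr : 0 < r) : 0 < ∫⁻ x, ‖prof hN x‖ₑ ^ r := by
  have hcont : Continuous (prof hN) := (prof_contDiff hN).continuous
  rw [lintegral_pos_iff_support (hcont.enorm.measurable.pow_const _)]
  obtain ⟨x, hx⟩ := prof_ne hN
  have hsup : Function.support (fun x => ‖prof hN x‖ₑ ^ r) = Function.support (prof hN) := by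
    ext y
    simp [Function.mem_support, ENNReal.rpow_eq_zero_iff, hr]
  rw [hsup]
  exact (hcont.isOpen_support).measure_pos _ ⟨x, hx⟩

lemma memLp_U (hN : 1 ≤ N) {q : ℝ} (hq : 1 < q) {m : ℕ} (hm : q ≤ m) :
    MemLp (U hN q m) (ENNReal.ofReal q) volume := by
  have hq0 : 0 < q := by linarith
  have hm1 : 1 ≤ m := by
    have : (1 : ℝ) < m := lt_of_lt_of_le hq hm
    exact_mod_cast this.le
  refine ⟨(measurable_U hN q m).aestronglyMeasurable, ?_⟩
  have h0 : ENNReal.ofReal q ≠ 0 := by simpa using hq0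
  rw [eLpNorm_lt_top_iff_lintegral_rpow_enorm_lt_top h0 ENNReal.ofReal_ne_top, ENNReal.toReal_ofReal hq0.le]
  simp_rw [enorm_U_rpow hN m hq0]
  rw [lintegral_tsum (fun k => ((blk_continuous hN q m k).enorm.measurable.pow_const _).aemeasurable)]
  simp_rw [lintegral_blk hN m _ hq0]
  rw [ENNReal.tsum_mul_right]
  refine ENNReal.mul_lt_top ?_ (lintegral_prof_lt_top hN hq0)
  calc ∑' k, ENNReal.ofReal (amp N q m k ^ q * ((Lk m k) ^ N)⁻¹)
      ≤ ∑' k : ℕ, ENNReal.ofReal ((1 / 2) ^ k) := by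
        refine ENNReal.tsum_le_tsum fun k => ENNReal.ofReal_le_ofReal ?_
        have hL := Lk_pos m k
        calc amp N q m k ^ q * ((Lk m k) ^ N)⁻¹ = (2 ^ k) ^ q * (Lk m k)⁻¹ := by
              rw [amp_rpow_q hq, Real.rpow_sub hL, Real.rpow_one, Real.rpow_natCast]
              field_simp
          _ ≤ 2 ^ (m * k) * (Lk m k)⁻¹ := by
              gcongr
              calc ((2 : ℝ) ^ k) ^ q ≤ ((2 : ℝ) ^ k) ^ (m : ℝ) :=
                    Real.rpow_le_rpow_of_exponent_le (one_le_pow₀ (by norm_num)) hm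
                _ = 2 ^ (m * k) := by rw [Real.rpow_natCast, ← pow_mul, mul_comm]
          _ ≤ _ := pow_div_Lk hm1 k
    _ < ⊤ := by
        rw [← ENNReal.ofReal_tsum_of_nonneg (fun k => by positivity)
          (summable_geometric_of_lt_one (by norm_num) (by norm_num))]
        exact ENNReal.ofReal_lt_top

/-- L¹ summability of the blocks -/
lemma sum_L1 (hN : 1 ≤ N) {q : ℝ} (hq : 1 < q) {m : ℕ} (hm : q ≤ m) :
    ∑' k, ∫⁻ x, ‖blk hN q m k x‖ₑ < ⊤ := by
  have hm1 : 1 ≤ m := by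
    have : (1 : ℝ) < m := lt_of_lt_of_le hq hm
    exact_mod_cast this.le
  have h1 : ∀ k, ∫⁻ x, ‖blk hN q m k x‖ₑ = ENNReal.ofReal (amp N q m k * ((Lk m k) ^ N)⁻¹) *
      ∫⁻ x, ‖prof hN x‖ₑ := by
    intro k
    have := lintegral_blk hN (q := q) m k zero_lt_one
    simpa using this
  simp_rw [h1]
  rw [ENNReal.tsum_mul_right]
  have hfin : ∫⁻ x, ‖prof hN x‖ₑ < ⊤ := by simpa using lintegral_prof_lt_top hN zero_lt_one
  refine ENNReal.mul_lt_top ?_ hfin
  calc ∑' k, ENNReal.ofReal (amp N q m k * ((Lk m k) ^ N)⁻¹)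
      ≤ ∑' k : ℕ, ENNReal.ofReal ((1 / 2) ^ k) := by
        refine ENNReal.tsum_le_tsum fun k => ENNReal.ofReal_le_ofReal ?_
        have hL := Lk_pos m k
        have hL1 := one_le_Lk m k
        have hN' : (1 : ℝ) ≤ N := by exact_mod_cast hN
        calc amp N q m k * ((Lk m k) ^ N)⁻¹ ≤ (2 ^ k * (Lk m k) ^ ((N : ℝ) - 1)) * ((Lk m k) ^ N)⁻¹ := by
              unfold amp
              gcongr
              rw [div_le_iff₀ (by linarith)]
              nlinarith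
          _ = 2 ^ k * (Lk m k)⁻¹ := by
              rw [Real.rpow_sub hL, Real.rpow_one, Real.rpow_natCast]
              field_simp
          _ ≤ 2 ^ (m * k) * (Lk m k)⁻¹ := by
              gcongr
              · norm_num
              · nlinarith
          _ ≤ _ := pow_div_Lk hm1 k
    _ < ⊤ := by
        rw [← ENNReal.ofReal_tsum_of_nonneg (fun k => by positivity)
          (summable_geometric_of_lt_one (by norm_num) (by norm_num))]
        exact ENNReal.ofReal_lt_top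

end Pool.Agent.H57.Besov
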