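import Mathlib
import Pool.Agent.H57.Besov.Construct

open MeasureTheory Filter Topology Set
open scoped ENNReal NNReal ContDiff

namespace Pool.Agent.H57.Besov

variable {N : ℕ}

lemma weak_gain (hN : 1 ≤ N) {η g : EuclideanSpace ℝ (Fin N) → ℝ}
    (hw : ∀ φ : EuclideanSpace ℝ (Fin N) → ℝ, ContDiff ℝ ∞ φ → HasCompactSupport φ →
      ∫ x, η x * fderiv ℝ φ x (dir hN) = - ∫ x, g x * φ x) {L ε : ℝ} (hL : 0 < L) (hε : 0 < ε)
    (x a : EuclideanSpace ℝ (Fin N)) :
    ∫ z, η z * prof hN (L • (x - ε • z - a)) = 1 / (L * ε) * ∫ z, g z * Psi N (L • (x - ε • z - a)) := by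
  set φ : EuclideanSpace ℝ (Fin N) → ℝ := fun z => Psi N (L • (x - ε • z - a)) with hφ
  have hsm : ContDiff ℝ ∞ φ := by
    have := Psi_contDiff N
    fun_prop
  have hcs : HasCompactSupport φ := by
    refine HasCompactSupport.intro (isCompact_closedBall (0 : EuclideanSpace ℝ (Fin N))
      ((‖x - a‖ + 1 / (2 * L)) / ε)) ?_
    intro z hz
    apply Psi_zero
    rw [mem_closedBall_zero_iff, not_le, div_lt_iff₀ hε] at hz
    have e : x - ε • z - a = (x - a) - ε • z := by abel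
    rw [norm_smul, Real.norm_of_nonneg hL.le, e]
    have h1 : ‖ε • z‖ - ‖x - a‖ ≤ ‖(x - a) - ε • z‖ := by
      have := norm_sub_norm_le (ε • z) (x - a)
      rwa [norm_sub_rev (ε • z)] at this
    rw [norm_smul, Real.norm_of_nonneg hε.le] at h1
    have h2 : 1 / (2 * L) ≤ ‖(x - a) - ε • z‖ := by nlinarith
    calc (1 : ℝ) / 2 = L * (1 / (2 * L)) := by field_simp
      _ ≤ L * ‖(x - a) - ε • z‖ := by gcongr
  have hd : ∀ z, fderiv ℝ φ z (dir hN) = -(L * ε) * prof hN (L • (x - ε • z - a)) := by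
    intro z
    have h1 : HasFDerivAt (Psi N) (fderiv ℝ (Psi N) (L • (x - ε • z - a))) (L • (x - ε • z - a)) :=
      ((Psi_contDiff N).differentiable (by simp) _).hasFDerivAt
    have h2 : HasFDerivAt (fun z : EuclideanSpace ℝ (Fin N) => L • (x - ε • z - a))
        (L • (-(ε • ContinuousLinearMap.id ℝ (EuclideanSpace ℝ (Fin N))))) z := by
      have h3 : HasFDerivAt (fun z : EuclideanSpace ℝ (Fin N) => ε • z)
          (ε • ContinuousLinearMap.id ℝ (EuclideanSpace ℝ (Fin N))) z := (hasFDerivAt_id z).const_smul ε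
      exact ((h3.const_sub x).sub_const a).const_smul L
    have h3 := (h1.comp z h2).fderiv
    have h4 : φ = Psi N ∘ (fun z : EuclideanSpace ℝ (Fin N) => L • (x - ε • z - a)) := rfl
    rw [h4, h3]
    unfold prof
    simp only [ContinuousLinearMap.comp_apply, smul_apply, neg_apply,
      ContinuousLinearMap.id_apply, smul_neg, map_neg, map_smul, smul_eq_mul]
    ring
  have h := hw φ hsm hcs
  simp_rw [hd] at h
  have h5 : ∫ z, η z * (-(L * ε) * prof hN (L • (x - ε • z - a))) =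
      -(L * ε) * ∫ z, η z * prof hN (L • (x - ε • z - a)) := by
    rw [← integral_const_mul]; congr 1; ext z; ring
  rw [h5] at h
  have hne : L * ε ≠ 0 := by positivity
  rw [one_div, ← mul_right_inj' hne, ← mul_assoc, mul_inv_cancel₀ hne, one_mul]
  linarith

lemma J_const_mul (q : ℝ) (hq : 0 < q) {c : ℝ} (hc : 0 ≤ c) (v : EuclideanSpace ℝ (Fin N) → ℝ) :
    J q (fun x => c * v x) = ENNReal.ofReal c ^ q * J q v := by
  unfold J
  have hne : ENNReal.ofReal c ^ q ≠ ⊤ := ENNReal.rpow_ne_top_of_nonneg hq.le ENNReal.ofReal_ne_top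
  simp_rw [← lintegral_const_mul' _ _ hne]
  congr 1; ext x; congr 1; ext y
  rw [← mul_sub, enorm_mul, ENNReal.mul_rpow_of_nonneg _ _ hq.le, ← ofReal_norm c, Real.norm_of_nonneg hc, mul_assoc]

lemma J_scale_translate (q : ℝ) (v : EuclideanSpace ℝ (Fin N) → ℝ) {L : ℝ} (hL : 0 < L)
    (a : EuclideanSpace ℝ (Fin N)) :
    J q (fun x => v (L • (x - a))) = ENNReal.ofReal (L ^ (1 - (N : ℝ))) * J q v := by
  rw [← J_scale q v L hL]
  exact J_translate q (fun x => v (L • x)) a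

/-- seminorm of a scaled building block -/
lemma J_amp {q : ℝ} (hq : 1 < q) (m k : ℕ) (v : EuclideanSpace ℝ (Fin N) → ℝ) (a : EuclideanSpace ℝ (Fin N)) :
    (J q (fun x => amp N q m k * v (Lk m k • (x - a)))) ^ (1 / q) = ENNReal.ofReal (2 ^ k) * (J q v) ^ (1 / q) := by
  have hq0 : 0 < q := by linarith
  have hL := Lk_pos m k
  rw [J_const_mul q hq0 (amp_pos N q m k).le (fun x => v (Lk m k • (x - a))),
    J_scale_translate q v hL, ← mul_assoc, ENNReal.mul_rpow_of_nonneg _ _ (by positivity)]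
  congr 1
  rw [ENNReal.ofReal_rpow_of_nonneg (amp_pos N q m k).le hq0.le, amp_rpow_q hq,
    ← ENNReal.ofReal_mul (by positivity), ENNReal.ofReal_rpow_of_nonneg (by positivity) (by positivity)]
  congr 1
  rw [mul_assoc, ← Real.rpow_add hL]
  have : (N : ℝ) - 1 + (1 - N) = 0 := by ring
  rw [this, Real.rpow_zero, mul_one, ← Real.rpow_mul (by positivity), mul_one_div, div_self hq0.ne', Real.rpow_one]

/-- mollified block -/
noncomputable def mblk (hN : 1 ≤ N) (q : ℝ) (m : ℕ) (η : EuclideanSpace ℝ (Fin N) → ℝ) (ε : ℝ) (k : ℕ)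
    (x : EuclideanSpace ℝ (Fin N)) : ℝ := ∫ z, η z * blk hN q m k (x - ε • z)

lemma Psi_bdd (N : ℕ) : ∃ C, ∀ x, |Psi N x| ≤ C := by
  obtain ⟨C, hC⟩ := (Psi_contDiff N).continuous.bounded_above_of_compact_support (Psi_compact N)
  exact ⟨C, hC⟩

lemma prof_bdd (hN : 1 ≤ N) : ∃ C, ∀ x, |prof hN x| ≤ C := by
  obtain ⟨C, hC⟩ := (prof_contDiff hN).continuous.bounded_above_of_compact_support (prof_compact hN)
  exact ⟨C, hC⟩

lemma blk_bdd (hN : 1 ≤ N) (q : ℝ) (m k : ℕ) : ∃ C, ∀ x, |blk hN q m k x| ≤ C := by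
  obtain ⟨C, hC⟩ := prof_bdd hN
  refine ⟨amp N q m k * C, fun x => ?_⟩
  unfold blk
  rw [abs_mul, abs_of_pos (amp_pos N q m k)]
  exact mul_le_mul_of_nonneg_left (hC _) (amp_pos N q m k).le

lemma mblk_le_A (hN : 1 ≤ N) {q : ℝ} (hq : 1 < q) (m : ℕ) {η : EuclideanSpace ℝ (Fin N) → ℝ} (hη : Integrable η)
    (ε : ℝ) (k : ℕ) :
    (J q (mblk hN q m η ε k)) ^ (1 / q) ≤ ENNReal.ofReal (2 ^ k) * ((∫⁻ z, ‖η z‖ₑ) * (J q (prof hN)) ^ (1 / q)) := by
  have hq0 : 0 < q := by linarith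
  have h1 := J_conv_le hq hη (blk_continuous hN q m k) (blk_bdd hN q m k) ε
  have h2 : (J q (mblk hN q m η ε k)) ^ (1 / q) ≤
      ((∫⁻ z, ‖η z‖ₑ) ^ q * J q (blk hN q m k)) ^ (1 / q) := by
    gcongr
    exact h1
  refine h2.trans (le_of_eq ?_)
  rw [ENNReal.mul_rpow_of_nonneg _ _ (by positivity), ← ENNReal.rpow_mul, mul_one_div, div_self hq0.ne',
    ENNReal.rpow_one]
  have h3 := J_amp hq m k (prof hN) (ctr hN k)
  have h4 : (fun x => amp N q m k * prof hN (Lk m k • (x - ctr hN k))) = blk hN q m k := rfl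
  rw [h4] at h3
  rw [h3]
  ring

lemma mblk_le_B (hN : 1 ≤ N) {q : ℝ} (hq : 1 < q) (m : ℕ) {η g : EuclideanSpace ℝ (Fin N) → ℝ}
    (hg : Integrable g)
    (hw : ∀ φ : EuclideanSpace ℝ (Fin N) → ℝ, ContDiff ℝ ∞ φ → HasCompactSupport φ →
      ∫ x, η x * fderiv ℝ φ x (dir hN) = - ∫ x, g x * φ x)
    {ε : ℝ} (hε : 0 < ε) (k : ℕ) :
    (J q (mblk hN q m η ε k)) ^ (1 / q) ≤
      ENNReal.ofReal (2 ^ k * (1 / (Lk m k * ε))) * ((∫⁻ z, ‖g z‖ₑ) * (J q (Psi N)) ^ (1 / q)) := by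
  have hq0 : 0 < q := by linarith
  have hL := Lk_pos m k
  have hcont : Continuous (fun x => amp N q m k * Psi N (Lk m k • (x - ctr hN k))) := by
    have := (Psi_contDiff N).continuous
    fun_prop
  have hbdd : ∃ C, ∀ x, |amp N q m k * Psi N (Lk m k • (x - ctr hN k))| ≤ C := by
    obtain ⟨C, hC⟩ := Psi_bdd N
    refine ⟨amp N q m k * C, fun x => ?_⟩
    rw [abs_mul, abs_of_pos (amp_pos N q m k)]
    exact mul_le_mul_of_nonneg_left (hC _) (amp_pos N q m k).le
  have hrep : mblk hN q m η ε k = fun x => (1 / (Lk m k * ε)) *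
      ∫ z, g z * (fun x => amp N q m k * Psi N (Lk m k • (x - ctr hN k))) (x - ε • z) := by
    ext x
    unfold mblk blk
    have h1 := weak_gain hN hw hL hε x (ctr hN k)
    have h2 : ∫ z, η z * (amp N q m k * prof hN (Lk m k • (x - ε • z - ctr hN k))) =
        amp N q m k * ∫ z, η z * prof hN (Lk m k • (x - ε • z - ctr hN k)) := by
      rw [← integral_const_mul]; congr 1; ext z; ring
    have h3 : ∫ z, g z * (amp N q m k * Psi N (Lk m k • (x - ε • z - ctr hN k))) =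
        amp N q m k * ∫ z, g z * Psi N (Lk m k • (x - ε • z - ctr hN k)) := by
      rw [← integral_const_mul]; congr 1; ext z; ring
    simp only
    rw [h2, h3, h1]
    ring
  have h1 := J_conv_le hq hg hcont hbdd ε
  rw [hrep, J_const_mul q hq0 (by positivity)]
  have h2 : (ENNReal.ofReal (1 / (Lk m k * ε)) ^ q *
      J q (fun x => ∫ z, g z * (fun x => amp N q m k * Psi N (Lk m k • (x - ctr hN k))) (x - ε • z))) ^ (1 / q) ≤
      (ENNReal.ofReal (1 / (Lk m k * ε)) ^ q *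
       ((∫⁻ z, ‖g z‖ₑ) ^ q * J q (fun x => amp N q m k * Psi N (Lk m k • (x - ctr hN k))))) ^ (1 / q) := by
    gcongr
  refine h2.trans (le_of_eq ?_)
  rw [ENNReal.mul_rpow_of_nonneg _ _ (by positivity), ENNReal.mul_rpow_of_nonneg _ _ (by positivity),
    ← ENNReal.rpow_mul, ← ENNReal.rpow_mul, mul_one_div, div_self hq0.ne',
    ENNReal.rpow_one, ENNReal.rpow_one, J_amp hq m k (Psi N) (ctr hN k), ENNReal.ofReal_mul (by positivity)]
  ring

/-- almost everywhere decomposition -/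
lemma ae_hasSum (hN : 1 ≤ N) {q : ℝ} (hq : 1 < q) {m : ℕ} (hm : q ≤ m) {η : EuclideanSpace ℝ (Fin N) → ℝ}
    (hη : Integrable η) (ε : ℝ) :
    ∀ᵐ x, HasSum (fun k => mblk hN q m η ε k x) (∫ z, η z * U hN q m (x - ε • z)) := by
  have hae : AEMeasurable (fun z => ‖η z‖ₑ) (volume : Measure (EuclideanSpace ℝ (Fin N))) := hη.1.enorm
  have hmeas : ∀ k, AEMeasurable (fun x => ∫⁻ z, ‖η z * blk hN q m k (x - ε • z)‖ₑ) volume := by
    intro k
    have h1 : AEMeasurable (fun p : EuclideanSpace ℝ (Fin N) × EuclideanSpace ℝ (Fin N) =>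
        ‖η p.2 * blk hN q m k (p.1 - ε • p.2)‖ₑ) (volume.prod volume) := by
      have hc : Continuous (fun p : EuclideanSpace ℝ (Fin N) × EuclideanSpace ℝ (Fin N) =>
        blk hN q m k (p.1 - ε • p.2)) := by
        have := blk_continuous hN q m k
        fun_prop
      simp_rw [enorm_mul]
      exact (hae.comp_snd).mul hc.enorm.measurable.aemeasurable
    exact h1.lintegral_prod_right'
  have htot : ∫⁻ x, ∑' k, ∫⁻ z, ‖η z * blk hN q m k (x - ε • z)‖ₑ < ⊤ := by
    rw [lintegral_tsum hmeas]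
    have h1 : ∀ k, ∫⁻ x, ∫⁻ z, ‖η z * blk hN q m k (x - ε • z)‖ₑ =
        (∫⁻ z, ‖η z‖ₑ) * ∫⁻ x, ‖blk hN q m k x‖ₑ := by
      intro k
      rw [lintegral_lintegral_swap]
      · rw [← lintegral_mul_const'' _ hae]
        congr 1; ext z
        simp_rw [enorm_mul]
        rw [lintegral_const_mul' _ _ (by simp)]
        congr 1
        exact lintegral_sub_right_eq_self (μ := (volume : Measure (EuclideanSpace ℝ (Fin N))))
          (fun x => ‖blk hN q m k x‖ₑ) (ε • z)
      · have hc : Continuous (fun p : EuclideanSpace ℝ (Fin N) × EuclideanSpace ℝ (Fin N) =>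
          blk hN q m k (p.1 - ε • p.2)) := by
          have := blk_continuous hN q m k
          fun_prop
        simp only [Function.uncurry_def, enorm_mul]
        exact (hae.comp_snd).mul hc.enorm.measurable.aemeasurable
    simp_rw [h1]
    rw [ENNReal.tsum_mul_left]
    exact ENNReal.mul_lt_top hη.2 (sum_L1 hN hq hm)
  have hfin := ae_lt_top' (AEMeasurable.tsum hmeas) htot.ne
  filter_upwards [hfin] with x hx
  have hint : ∀ k, Integrable (fun z => η z * blk hN q m k (x - ε • z)) := by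
    intro k
    obtain ⟨C, hC⟩ := blk_bdd hN q m k
    refine hη.mul_bdd (c := C) ?_ ?_
    · exact ((blk_continuous hN q m k).comp (by fun_prop)).aestronglyMeasurable
    · exact Eventually.of_forall (fun z => by simpa using hC _)
  have hsum : Summable (fun k => ∫ z, ‖η z * blk hN q m k (x - ε • z)‖) := by
    have h2 : ∀ k, ∫ z, ‖η z * blk hN q m k (x - ε • z)‖ =
        (∫⁻ z, ‖η z * blk hN q m k (x - ε • z)‖ₑ).toReal := by
      intro k
      rw [integral_norm_eq_lintegral_enorm (hint k).1]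
    simp_rw [h2]
    exact ENNReal.summable_toReal hx.ne
  have h3 := hasSum_integral_of_summable_integral_norm hint hsum
  have h4 : ∀ z, ∑' k, η z * blk hN q m k (x - ε • z) = η z * U hN q m (x - ε • z) := by
    intro z
    rw [tsum_mul_left]; rfl
  simp_rw [h4] at h3
  exact h3

lemma aesm_mollU (hN : 1 ≤ N) (q : ℝ) (m : ℕ) {η : EuclideanSpace ℝ (Fin N) → ℝ}
    (hη : Integrable η) (ε : ℝ) :
    AEStronglyMeasurable (fun x => ∫ z, η z * U hN q m (x - ε • z)) volume := by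
  have h1 : AEStronglyMeasurable (fun p : EuclideanSpace ℝ (Fin N) × EuclideanSpace ℝ (Fin N) =>
        η p.2 * U hN q m (p.1 - ε • p.2)) (volume.prod volume) := by
    refine (hη.1.comp_snd).mul ?_
    exact ((measurable_U hN q m).comp (by fun_prop)).aestronglyMeasurable
  exact h1.integral_prod_right'

lemma aesm_mblk (hN : 1 ≤ N) (q : ℝ) (m : ℕ) {η : EuclideanSpace ℝ (Fin N) → ℝ}
    (hη : Integrable η) (ε : ℝ) (k : ℕ) :
    AEStronglyMeasurable (mblk hN q m η ε k) volume := by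
  have h1 : AEStronglyMeasurable (fun p : EuclideanSpace ℝ (Fin N) × EuclideanSpace ℝ (Fin N) =>
        η p.2 * blk hN q m k (p.1 - ε • p.2)) (volume.prod volume) := by
    refine (hη.1.comp_snd).mul ?_
    exact ((blk_continuous hN q m k).measurable.comp (by fun_prop)).aestronglyMeasurable
  exact h1.integral_prod_right'

/-- the logarithmic upper bound -/
theorem upper (hN : 1 ≤ N) {q : ℝ} (hq : 1 < q) {m : ℕ} (hm : q ≤ m) {η g : EuclideanSpace ℝ (Fin N) → ℝ}
    (hη : Integrable η) (hg : Integrable g)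
    (hw : ∀ φ : EuclideanSpace ℝ (Fin N) → ℝ, ContDiff ℝ ∞ φ → HasCompactSupport φ →
      ∫ x, η x * fderiv ℝ φ x (dir hN) = - ∫ x, g x * φ x) :
    ∃ C : ℝ≥0∞, C < ⊤ ∧ ∀ ε : ℝ, 0 < ε → ε < 1 / 2 →
      J q (fun x => ∫ z, η z * U hN q m (x - ε • z)) ≤ C * ENNReal.ofReal |Real.log ε| := by
  have hq0 : 0 < q := by linarith
  set A : ℝ≥0∞ := (∫⁻ z, ‖η z‖ₑ) * (J q (prof hN)) ^ (1 / q) with hA
  set B : ℝ≥0∞ := (∫⁻ z, ‖g z‖ₑ) * (J q (Psi N)) ^ (1 / q) with hB
  have hAfin : A < ⊤ := by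
    refine ENNReal.mul_lt_top hη.2 (ENNReal.rpow_lt_top_of_nonneg (by positivity) ?_)
    exact (J_lt_top hN hq ((prof_contDiff hN).of_le (by simp)) (prof_compact hN)).ne
  have hBfin : B < ⊤ := by
    refine ENNReal.mul_lt_top hg.2 (ENNReal.rpow_lt_top_of_nonneg (by positivity) ?_)
    exact (J_lt_top hN hq ((Psi_contDiff N).of_le (by simp)) (Psi_compact N)).ne
  refine ⟨(A + B) ^ q * ENNReal.ofReal (12 ^ q * (2 / Real.log 2)), ?_, ?_⟩
  · refine ENNReal.mul_lt_top (ENNReal.rpow_lt_top_of_nonneg hq0.le ?_) ENNReal.ofReal_lt_top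
    exact (ENNReal.add_lt_top.2 ⟨hAfin, hBfin⟩).ne
  intro ε hε hε2
  have hk : ∀ k, (J q (mblk hN q m η ε k)) ^ (1 / q) ≤
      (A + B) * ENNReal.ofReal (2 ^ k * min 1 (1 / (Lk m k * ε))) := by
    intro k
    rcases le_total 1 (1 / (Lk m k * ε)) with h | h
    · rw [min_eq_left h, mul_one, mul_comm]
      exact (mblk_le_A hN hq m hη ε k).trans (by gcongr; exact le_self_add)
    · rw [min_eq_right h, mul_comm]
      exact (mblk_le_B hN hq m hg hw hε k).trans (by gcongr; exact le_add_self)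
  have h1 := J_hasSum_le hq.le (aesm_mblk hN q m hη ε) (aesm_mollU hN q m hη ε) (ae_hasSum hN hq hm hη ε)
  have h2 : (J q (fun x => ∫ z, η z * U hN q m (x - ε • z))) ^ (1 / q) ≤
      (A + B) * ∑' k : ℕ, ENNReal.ofReal (2 ^ k * min 1 (1 / (Lk m k * ε))) := by
    refine h1.trans ?_
    rw [← ENNReal.tsum_mul_left]
    exact ENNReal.tsum_le_tsum hk
  have h3 := numeric hq hm hε hε2
  calc J q (fun x => ∫ z, η z * U hN q m (x - ε • z))
      = ((J q (fun x => ∫ z, η z * U hN q m (x - ε • z))) ^ (1 / q)) ^ q := by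
        rw [← ENNReal.rpow_mul, one_div, inv_mul_cancel₀ hq0.ne', ENNReal.rpow_one]
    _ ≤ ((A + B) * ∑' k : ℕ, ENNReal.ofReal (2 ^ k * min 1 (1 / (Lk m k * ε)))) ^ q := by gcongr
    _ = (A + B) ^ q * (∑' k : ℕ, ENNReal.ofReal (2 ^ k * min 1 (1 / (Lk m k * ε)))) ^ q :=
        ENNReal.mul_rpow_of_nonneg _ _ hq0.le
    _ ≤ (A + B) ^ q * ENNReal.ofReal (12 ^ q * (2 / Real.log 2) * |Real.log ε|) := by gcongr
    _ = _ := by
        have hl2 : 0 < Real.log 2 := Real.log_pos (by norm_num)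
        rw [ENNReal.ofReal_mul (by positivity), mul_assoc]

/-- the lower bound: Besov quotients are unbounded -/
theorem lower (hN : 1 ≤ N) {q : ℝ} (hq : 1 < q) (m : ℕ) (k : ℕ) :
    ENNReal.ofReal ((2 ^ k) ^ q / 2) * ∫⁻ x, ‖prof hN x‖ₑ ^ q ≤
    ∫⁻ x, ‖U hN q m (x + (2 / Lk m k) • dir hN) - U hN q m x‖ₑ ^ q * ENNReal.ofReal (1 / (2 / Lk m k)) := by
  have hq0 : 0 < q := by linarith
  have hL := Lk_pos m k
  have hL2 := two_le_Lk m k
  have hpt : ∀ x, ‖blk hN q m k x‖ₑ ≤ ‖U hN q m (x + (2 / Lk m k) • dir hN) - U hN q m x‖ₑ := by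
    intro x
    by_cases hx : 1 / 2 < Lk m k * ‖x - ctr hN k‖
    · rw [blk_zero hN q m k hx]; simp
    · push Not at hx
      have hx1 : ‖x - ctr hN k‖ ≤ 1 / 2 := by nlinarith [norm_nonneg (x - ctr hN k)]
      have hx2 : ‖x + (2 / Lk m k) • dir hN - ctr hN k‖ ≤ 2 := by
        have e : x + (2 / Lk m k) • dir hN - ctr hN k = (x - ctr hN k) + (2 / Lk m k) • dir hN := by abel
        rw [e]
        refine (norm_add_le _ _).trans ?_
        rw [norm_smul, norm_dir, Real.norm_of_nonneg (by positivity)]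
        have : 2 / Lk m k ≤ 1 := by rw [div_le_one hL]; exact hL2
        linarith
      have e1 : U hN q m x = blk hN q m k x :=
        U_eq_of_single hN q m (fun j hj => blk_zero_of_near hN q m hj (by linarith))
      have e2 : U hN q m (x + (2 / Lk m k) • dir hN) = blk hN q m k (x + (2 / Lk m k) • dir hN) :=
        U_eq_of_single hN q m (fun j hj => blk_zero_of_near hN q m hj hx2)
      have e3 : blk hN q m k (x + (2 / Lk m k) • dir hN) = 0 := by
        apply blk_zero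
        have e : x + (2 / Lk m k) • dir hN - ctr hN k = (2 / Lk m k) • dir hN - (-(x - ctr hN k)) := by abel
        have h1 : ‖(2 / Lk m k) • dir hN‖ - ‖-(x - ctr hN k)‖ ≤ ‖x + (2 / Lk m k) • dir hN - ctr hN k‖ := by
          rw [e]; exact norm_sub_norm_le _ _
        rw [norm_neg, norm_smul, norm_dir, Real.norm_of_nonneg (by positivity), mul_one] at h1
        have h2 : Lk m k * (2 / Lk m k - ‖x - ctr hN k‖) ≤ Lk m k * ‖x + (2 / Lk m k) • dir hN - ctr hN k‖ := by
          gcongr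
        have h3 : Lk m k * (2 / Lk m k) = 2 := by field_simp
        nlinarith
      rw [e1, e2, e3, zero_sub, enorm_neg]
  calc ENNReal.ofReal ((2 ^ k) ^ q / 2) * ∫⁻ x, ‖prof hN x‖ₑ ^ q
      = (∫⁻ x, ‖blk hN q m k x‖ₑ ^ q) * ENNReal.ofReal (1 / (2 / Lk m k)) := by
        rw [lintegral_blk hN m k hq0, mul_right_comm, ← ENNReal.ofReal_mul]
        · congr 2
          rw [amp_rpow_q hq, Real.rpow_sub hL, Real.rpow_one, Real.rpow_natCast]
          field_simp
        · have := amp_pos N q m k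
          positivity
    _ = ∫⁻ x, ‖blk hN q m k x‖ₑ ^ q * ENNReal.ofReal (1 / (2 / Lk m k)) := by
        rw [lintegral_mul_const' _ _ ENNReal.ofReal_ne_top]
    _ ≤ _ := by
        refine lintegral_mono fun x => ?_
        simp only
        gcongr
        exact hpt x

end Pool.Agent.H57.Besov
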